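import Mathlib
import Pool.Agent.H243R3.PCP.Quad

/-!
# A constant degree expander sequence none of whose members is movable

The plane is the complex plane.  The direct isometries of the plane are the maps `z ↦ a z + b`
with `‖a‖ = 1`.
-/

namespace Pool.Agent.Results.MP_e534f3_co.RigidExpanders

open Finset Filter

/-- `ρ` is a realisation of the graph `G` with edge labelling `lam` in the plane. -/
def IsRealisation {V : Type} (G : SimpleGraph V) (lam : Sym2 V → ℝ) (ρ : V → ℂ) : Prop :=
  ∀ u v, G.Adj u v → ‖ρ u - ρ v‖ = lam s(u, v)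

/-- Two maps into the plane differ by a direct isometry. -/
def Equivalent {V : Type} (ρ₁ ρ₂ : V → ℂ) : Prop :=
  ∃ a b : ℂ, ‖a‖ = 1 ∧ ∀ v, ρ₁ v = a * ρ₂ v + b

/-- `G` is movable: for some positive edge labelling there are infinitely many pairwise
inequivalent injective realisations. -/
def IsMovable {V : Type} (G : SimpleGraph V) : Prop :=
  ∃ lam : Sym2 V → ℝ, (∀ e ∈ G.edgeSet, 0 < lam e) ∧
    ∃ R : Set (V → ℂ), R.Infinite ∧
      (∀ ρ ∈ R, IsRealisation G lam ρ ∧ Function.Injective ρ) ∧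
      R.Pairwise fun ρ₁ ρ₂ => ¬ Equivalent ρ₁ ρ₂

/-- The edges with exactly one endpoint in `S`. -/
def boundary {V : Type} (G : SimpleGraph V) (S : Set V) : Set (Sym2 V) :=
  {e | e ∈ G.edgeSet ∧ ∃ u ∈ S, ∃ v ∉ S, e = s(u, v)}

/-- `G` is a constant degree `d` expander sequence (of finite connected graphs). -/
structure IsExpanderSequence (d : ℕ) (V : ℕ → Type) [∀ n, Fintype (V n)]
    (G : ∀ n, SimpleGraph (V n)) : Prop where
  connected : ∀ n, (G n).Connected
  regular : ∀ n v, ((G n).neighborSet v).ncard = d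
  card : Tendsto (fun n => Fintype.card (V n)) atTop atTop
  expansion : ∃ ε : ℝ, 0 < ε ∧ ∀ n, ∀ S : Finset (V n), 0 < S.card →
    2 * S.card ≤ Fintype.card (V n) → ε * S.card ≤ (boundary (G n) (S : Set (V n))).ncard

/-! ## Realisations -/

/-- Two circles with different centres meet in finitely many points. -/
lemma circles_finite (p q : ℂ) (hpq : p ≠ q) (r s : ℝ) :
    {z : ℂ | ‖z - p‖ = r ∧ ‖z - q‖ = s}.Finite := by
  by_cases hs : {z : ℂ | ‖z - p‖ = r ∧ ‖z - q‖ = s}.Subsingleton
  · exact hs.finite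
  · rw [Set.not_subsingleton_iff] at hs
    obtain ⟨a, ha, b, hb, hab⟩ := hs
    refine (Set.toFinite {a, b}).subset ?_
    intro z hz
    have h := @EuclideanGeometry.eq_of_dist_eq_of_dist_eq_of_finrank_eq_two ℂ ℂ _ _ _ _ _
      Complex.finrank_real_complex p q a b z r s hpq hab
      (by rw [dist_eq_norm]; exact ha.1) (by rw [dist_eq_norm]; exact hb.1)
      (by rw [dist_eq_norm]; exact hz.1) (by rw [dist_eq_norm]; exact ha.2)
      (by rw [dist_eq_norm]; exact hb.2) (by rw [dist_eq_norm]; exact hz.2)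
    simpa using h

/-- The normalised position of `v`. -/
noncomputable def nrm {V : Type} (u0 v0 : V) (ρ : V → ℂ) (v : V) : ℂ :=
  (ρ v - ρ u0) / (ρ v0 - ρ u0)

/-- If every set of vertices containing `u0`, `v0` and closed under 'adjacent to two distinct
members' is everything then the graph is not movable. -/
lemma not_movable {V : Type} [Finite V] (G : SimpleGraph V) (u0 v0 : V) (h0 : G.Adj u0 v0)
    (hcl : ∀ K : Set V, u0 ∈ K → v0 ∈ K →
      (∀ a b w, a ∈ K → b ∈ K → a ≠ b → G.Adj w a → G.Adj w b → w ∈ K) → ∀ w, w ∈ K) :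
    ¬ IsMovable G := by
  rintro ⟨lam, hlam, R, hinf, hR, hpw⟩
  have hl0 : 0 < lam s(u0, v0) := hlam _ h0
  have hne : ∀ ρ ∈ R, ρ v0 - ρ u0 ≠ 0 := by
    intro ρ hρ h
    have := (hR ρ hρ).1 v0 u0 h0.symm
    rw [h, norm_zero, Sym2.eq_swap] at this
    linarith
  have hnorm : ∀ ρ ∈ R, ‖ρ v0 - ρ u0‖ = lam s(u0, v0) := by
    intro ρ hρ
    have := (hR ρ hρ).1 v0 u0 h0.symm
    rwa [Sym2.eq_swap] at this
  have hfin : ∀ w, ((fun ρ => nrm u0 v0 ρ w) '' R).Finite := by
    apply hcl {w | ((fun ρ => nrm u0 v0 ρ w) '' R).Finite}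
    · rw [Set.mem_ofPred_eq]
      refine (Set.finite_singleton (0 : ℂ)).subset ?_
      rintro _ ⟨ρ, hρ, rfl⟩
      simp [nrm]
    · rw [Set.mem_ofPred_eq]
      refine (Set.finite_singleton (1 : ℂ)).subset ?_
      rintro _ ⟨ρ, hρ, rfl⟩
      simp [nrm, div_self (hne ρ hρ)]
    · intro a b w ha hb hab hwa hwb
      rw [Set.mem_ofPred_eq] at ha hb ⊢
      refine Set.Finite.subset (Set.Finite.biUnion (ha.prod hb)
        (t := fun pq => {z : ℂ | pq.1 ≠ pq.2 ∧ ‖z - pq.1‖ = lam s(w, a) / lam s(u0, v0) ∧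
          ‖z - pq.2‖ = lam s(w, b) / lam s(u0, v0)}) ?_) ?_
      · rintro ⟨p, q⟩ -
        by_cases hpq : p = q
        · subst hpq
          simp
        · refine (circles_finite p q hpq (lam s(w, a) / lam s(u0, v0))
            (lam s(w, b) / lam s(u0, v0))).subset ?_
          intro z hz
          exact hz.2
      · rintro _ ⟨ρ, hρ, rfl⟩
        simp only [Set.mem_iUnion]
        refine ⟨(nrm u0 v0 ρ a, nrm u0 v0 ρ b), ⟨⟨ρ, hρ, rfl⟩, ⟨ρ, hρ, rfl⟩⟩, ?_⟩
        rw [Set.mem_ofPred_eq]
        have h1 : ∀ x y, nrm u0 v0 ρ x - nrm u0 v0 ρ y = (ρ x - ρ y) / (ρ v0 - ρ u0) := by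
          intro x y
          simp only [nrm]
          rw [← sub_div]
          congr 1
          ring
        refine ⟨?_, ?_, ?_⟩
        · intro h
          have h2 := h1 a b
          change nrm u0 v0 ρ a = nrm u0 v0 ρ b at h
          rw [h, sub_self, eq_comm, div_eq_zero_iff] at h2
          rcases h2 with h2 | h2
          · exact hab ((hR ρ hρ).2 (sub_eq_zero.1 h2))
          · exact hne ρ hρ h2
        · rw [h1, norm_div, hnorm ρ hρ, (hR ρ hρ).1 w a hwa]
        · rw [h1, norm_div, hnorm ρ hρ, (hR ρ hρ).1 w b hwb]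
  -- the normalisation is injective on `R`
  have hinj : Set.InjOn (fun ρ => nrm u0 v0 ρ) R := by
    intro ρ₁ h₁ ρ₂ h₂ h
    by_contra hne'
    refine hpw h₁ h₂ hne' ?_
    have hw₂ := hne ρ₂ h₂
    refine ⟨(ρ₁ v0 - ρ₁ u0) / (ρ₂ v0 - ρ₂ u0),
      ρ₁ u0 - (ρ₁ v0 - ρ₁ u0) / (ρ₂ v0 - ρ₂ u0) * ρ₂ u0, ?_, ?_⟩
    · rw [norm_div, hnorm ρ₁ h₁, hnorm ρ₂ h₂, div_self hl0.ne']
    · intro v
      have h3 := congrFun h v
      simp only [nrm] at h3
      have hw₁ := hne ρ₁ h₁
      rw [div_eq_div_iff hw₁ hw₂] at h3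
      field_simp
      linear_combination h3
  have hsub : (fun ρ => nrm u0 v0 ρ) '' R ⊆
      Set.pi Set.univ (fun w => (fun ρ => nrm u0 v0 ρ w) '' R) := by
    rintro _ ⟨ρ, hρ, rfl⟩ w -
    exact ⟨ρ, hρ, rfl⟩
  have : ((fun ρ => nrm u0 v0 ρ) '' R).Finite :=
    (Set.Finite.pi' (fun w => hfin w)).subset (by
      intro z hz w
      exact hsub hz w (Set.mem_univ w))
  exact hinf (this.of_finite_image hinj)

/-! ## Expansion gives connectedness -/

lemma connected_of_expansion {V : Type} [Fintype V] [Nonempty V] (G : SimpleGraph V) (ε : ℝ)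
    (hε : 0 < ε) (h : ∀ S : Finset V, 0 < S.card → 2 * S.card ≤ Fintype.card V →
      ε * S.card ≤ (boundary G (S : Set V)).ncard) : G.Connected := by
  classical
  obtain ⟨u⟩ := ‹Nonempty V›
  set S : Finset V := Finset.univ.filter fun v => G.Reachable u v with hS
  have hb : ∀ a b, a ∈ S → b ∉ S → ¬ G.Adj a b := by
    intro a b ha hb hab
    rw [hS, mem_filter] at ha hb
    exact hb ⟨mem_univ _, ha.2.trans hab.reachable⟩
  have hu : u ∈ S := by
    rw [hS, mem_filter]
    exact ⟨mem_univ _, SimpleGraph.Reachable.refl _⟩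
  have hb1 : boundary G (S : Set V) = ∅ := by
    rw [Set.eq_empty_iff_forall_notMem]
    rintro e ⟨he, a, ha, b, hb', rfl⟩
    exact hb a b ha hb' he
  have hb2 : boundary G ((Sᶜ : Finset V) : Set V) = ∅ := by
    rw [Set.eq_empty_iff_forall_notMem]
    rintro e ⟨he, a, ha, b, hb', rfl⟩
    rw [mem_coe, mem_compl] at ha hb'
    rw [not_not] at hb'
    exact hb b a hb' ha (G.mem_edgeSet.1 he).symm
  have hSpos : 0 < S.card := Finset.card_pos.2 ⟨u, hu⟩
  have hcc := Finset.card_add_card_compl S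
  have h1 : Fintype.card V < 2 * S.card := by
    by_contra hc
    have := h S hSpos (by omega)
    rw [hb1, Set.ncard_empty, Nat.cast_zero] at this
    have h3 : (0 : ℝ) < S.card := by exact_mod_cast hSpos
    nlinarith
  have h2 : Sᶜ.card = 0 := by
    by_contra hc
    have := h Sᶜ (by omega) (by omega)
    rw [hb2, Set.ncard_empty, Nat.cast_zero] at this
    have h3 : (0 : ℝ) < Sᶜ.card := by exact_mod_cast (by omega : 0 < Sᶜ.card)
    nlinarith
  rw [Finset.card_eq_zero, Finset.compl_eq_empty_iff] at h2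
  rw [SimpleGraph.connected_iff_exists_forall_reachable]
  refine ⟨u, fun v => ?_⟩
  have : v ∈ S := by rw [h2]; exact mem_univ _
  rw [hS, mem_filter] at this
  exact this.2

/-! ## The energy -/

/-- The energy of a function on the vertices (ordered pairs). -/
noncomputable def energy {V : Type} [Fintype V] (G : SimpleGraph V) (F : V → ℝ) : ℝ :=
  open scoped Classical in
  ∑ p : V × V, if G.Adj p.1 p.2 then (F p.1 - F p.2) ^ 2 else 0

lemma sum_le_energy {V : Type} [Fintype V] (G : SimpleGraph V) (F : V → ℝ) {X : Type} [Fintype X]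
    (φ : X → V × V) (hφ : Function.Injective φ) (hadj : ∀ x, G.Adj (φ x).1 (φ x).2) :
    ∑ x, (F (φ x).1 - F (φ x).2) ^ 2 ≤ energy G F := by
  classical
  have h1 : ∑ x, (F (φ x).1 - F (φ x).2) ^ 2 =
      ∑ p ∈ Finset.univ.map ⟨φ, hφ⟩,
        if G.Adj p.1 p.2 then (F p.1 - F p.2) ^ 2 else 0 := by
    rw [Finset.sum_map]
    refine Finset.sum_congr rfl fun x _ => ?_
    simp only [Function.Embedding.coeFn_mk]
    rw [if_pos (hadj x)]
  rw [h1]
  unfold energy
  refine (Finset.sum_le_sum_of_subset_of_nonneg (Finset.subset_univ _) ?_).trans (le_of_eq ?_)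
  · intro i _ _
    split_ifs
    · positivity
    · exact le_refl _
  · refine Finset.sum_congr rfl fun x _ => ?_
    congr

lemma energy_indicator {V : Type} [Fintype V] (G : SimpleGraph V) (S : Finset V) :
    energy G (Set.indicator (S : Set V) 1) ≤ 2 * (boundary G (S : Set V)).ncard := by
  classical
  set P : Finset (V × V) := Finset.univ.filter fun p => G.Adj p.1 p.2 ∧ p.1 ∈ S ∧ p.2 ∉ S with hP
  have hcard : P.card ≤ (boundary G (S : Set V)).ncard := by
    rw [← Set.ncard_coe_finset]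
    refine Set.ncard_le_ncard_of_injOn (fun p => s(p.1, p.2)) ?_ ?_ (Set.toFinite _)
    · rintro ⟨a, b⟩ hab
      rw [mem_coe, hP, mem_filter] at hab
      exact ⟨hab.2.1, a, hab.2.2.1, b, hab.2.2.2, rfl⟩
    · rintro ⟨a, b⟩ hab ⟨c, d⟩ hcd heq
      rw [mem_coe, hP, mem_filter] at hab hcd
      simp only at heq hab hcd
      rw [Sym2.eq_iff] at heq
      rcases heq with ⟨rfl, rfl⟩ | ⟨rfl, rfl⟩
      · rfl
      · exact absurd hab.2.2.1 hcd.2.2.2
  have hsplit : energy G (Set.indicator (S : Set V) 1) =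
      ∑ p : V × V, ((if p ∈ P then (1 : ℝ) else 0) + (if p.swap ∈ P then (1 : ℝ) else 0)) := by
    unfold energy
    refine Finset.sum_congr rfl fun p _ => ?_
    obtain ⟨a, b⟩ := p
    simp only [hP, mem_filter, mem_univ, true_and, Prod.swap_prod_mk, Set.indicator_apply,
      mem_coe, Pi.one_apply]
    by_cases hab : G.Adj a b
    · have hba : G.Adj b a := hab.symm
      by_cases ha : a ∈ S <;> by_cases hb : b ∈ S <;> simp [hab, hba, ha, hb]
    · have hba : ¬ G.Adj b a := fun h => hab h.symm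
      simp [hab, hba]
  rw [hsplit, Finset.sum_add_distrib]
  have h1 : ∑ p : V × V, (if p ∈ P then (1 : ℝ) else 0) = P.card := by
    rw [Finset.sum_ite_mem, Finset.univ_inter, Finset.sum_const, nsmul_eq_mul, mul_one]
  have h2 : ∑ p : V × V, (if p.swap ∈ P then (1 : ℝ) else 0) = P.card := by
    rw [← h1]
    exact Fintype.sum_equiv (Equiv.prodComm V V) _ _ (fun p => rfl)
  rw [h1, h2]
  have : (P.card : ℝ) ≤ (boundary G (S : Set V)).ncard := by exact_mod_cast hcard
  linarith

/-! ## The graphs -/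

section Graph

variable (n : ℕ)

/-- The torus. -/
abbrev Tor := ZMod n × ZMod n

/-- The vertices. -/
abbrev Vtx := (Tor n × Bool) × Fin 5 × Bool

/-- The five permutations of the torus. -/
def T : Fin 5 → Equiv.Perm (Tor n)
  | 0 => Equiv.refl _
  | 1 => ⟨fun z => (z.1 + z.2, z.2), fun z => (z.1 - z.2, z.2), fun z => by simp, fun z => by simp⟩
  | 2 => ⟨fun z => (z.1, z.2 + z.1), fun z => (z.1, z.2 - z.1), fun z => by simp, fun z => by simp⟩
  | 3 => ⟨fun z => (z.1 + 1, z.2), fun z => (z.1 - 1, z.2), fun z => by simp, fun z => by simp⟩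
  | 4 => ⟨fun z => (z.1, z.2 + 1), fun z => (z.1, z.2 - 1), fun z => by simp, fun z => by simp⟩

/-- The cell reached from the cell `c` by the move `g`. -/
def mv (g : Fin 5) (c : Tor n × Bool) : Tor n × Bool :=
  if c.2 then ((T n g).symm c.1, false) else (T n g c.1, true)

lemma mv_mv (g : Fin 5) (c : Tor n × Bool) : mv n g (mv n g c) = c := by
  obtain ⟨x, e⟩ := c
  cases e <;> simp [mv]

lemma mv_ne (g : Fin 5) (c : Tor n × Bool) : mv n g c ≠ c := by
  obtain ⟨x, e⟩ := c
  cases e <;> simp [mv]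

/-- The graph: every cell is a clique on ten vertices, and the vertices `(c, g, j)` are joined to
the two vertices `(mv g c, g, j')`. -/
def Gr : SimpleGraph (Vtx n) where
  Adj u v := (u.1 = v.1 ∧ u.2 ≠ v.2) ∨ (v.1 = mv n u.2.1 u.1 ∧ v.2.1 = u.2.1)
  symm := ⟨by
    rintro ⟨c, g, j⟩ ⟨c', g', j'⟩ (⟨h1, h2⟩ | ⟨h1, h2⟩)
    · exact Or.inl ⟨h1.symm, h2.symm⟩
    · simp only at h1 h2
      subst h1 h2
      right
      exact ⟨(mv_mv n _ _).symm, rfl⟩⟩
  loopless := ⟨by
    rintro ⟨c, g, j⟩ (⟨h1, h2⟩ | ⟨h1, h2⟩)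
    · exact h2 rfl
    · exact mv_ne n g c h1.symm⟩

lemma Gr_adj (u v : Vtx n) : (Gr n).Adj u v ↔
    (u.1 = v.1 ∧ u.2 ≠ v.2) ∨ (v.1 = mv n u.2.1 u.1 ∧ v.2.1 = u.2.1) := Iff.rfl

lemma Gr_degree (v : Vtx n) : ((Gr n).neighborSet v).ncard = 11 := by
  obtain ⟨c, g, j⟩ := v
  have h1 : (Gr n).neighborSet (c, g, j) =
      ((fun w : Fin 5 × Bool => ((c, w) : Vtx n)) '' {w | w ≠ (g, j)}) ∪
      ((fun k : Bool => ((mv n g c, g, k) : Vtx n)) '' Set.univ) := by
    ext ⟨c', g', j'⟩
    rw [SimpleGraph.mem_neighborSet, Gr_adj, Set.mem_union, Set.mem_image, Set.mem_image]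
    constructor
    · rintro (⟨h1, h2⟩ | ⟨h1, h2⟩)
      · left
        refine ⟨(g', j'), fun h => h2 h.symm, ?_⟩
        simp only at h1
        rw [h1]
      · right
        simp only at h1 h2
        exact ⟨j', Set.mem_univ _, by rw [h1, h2]⟩
    · rintro (⟨w, hw, h⟩ | ⟨k, -, h⟩)
      · left
        rw [Prod.mk.injEq] at h
        obtain ⟨rfl, rfl⟩ := h
        exact ⟨rfl, fun h => hw h.symm⟩
      · right
        obtain ⟨h1, h2⟩ := Prod.mk.inj h
        obtain ⟨h2, h3⟩ := Prod.mk.inj h2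
        exact ⟨h1.symm, h2.symm⟩
  rw [h1, Set.ncard_union_eq, Set.ncard_image_of_injective, Set.ncard_image_of_injective]
  · have h2 : ({w : Fin 5 × Bool | w ≠ (g, j)} : Set _).ncard = 9 := by
      have h3 : ({w : Fin 5 × Bool | w ≠ (g, j)} : Set _) =
          ((Finset.univ.erase (g, j) : Finset (Fin 5 × Bool)) : Set _) := by
        ext w
        simp
      rw [h3, Set.ncard_coe_finset, Finset.card_erase_of_mem (mem_univ _)]
      rfl
    have h4 : (Set.univ : Set Bool).ncard = 2 := by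
      rw [Set.ncard_univ]
      simp
    rw [h2, h4]
  · intro a b h
    exact (Prod.mk.inj (Prod.mk.inj h).2).2
  · intro a b h
    rw [Prod.mk.injEq] at h
    exact h.2
  · rw [Set.disjoint_left]
    rintro _ ⟨w, hw, rfl⟩ ⟨k, -, h⟩
    rw [Prod.mk.injEq] at h
    exact mv_ne n g c h.1

variable [NeZero n]

lemma card_Vtx : Fintype.card (Vtx n) = 20 * n ^ 2 := by
  simp [Fintype.card_prod, ZMod.card]
  ring

/-! ## Non-movability -/

lemma Gr_not_movable (hc : (Gr n).Connected) : ¬ IsMovable (Gr n) := by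
  have hadj0 : (Gr n).Adj (((0, 0), false), 0, false) (((0, 0), false), 0, true) := by
    rw [Gr_adj]
    left
    exact ⟨rfl, by simp⟩
  refine not_movable (Gr n) _ _ hadj0 ?_
  intro K hu hv hcl
  -- two members in a cell give the whole cell
  have hcell : ∀ (c : Tor n × Bool) (a b : Fin 5 × Bool), (c, a) ∈ K → (c, b) ∈ K → a ≠ b →
      ∀ w, (c, w) ∈ K := by
    intro c a b ha hb hab w
    by_cases hwa : w = a
    · rw [hwa]; exact ha
    by_cases hwb : w = b
    · rw [hwb]; exact hb
    refine hcl (c, a) (c, b) (c, w) ha hb ?_ ?_ ?_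
    · intro h
      exact hab (Prod.mk.inj h).2
    · exact Or.inl ⟨rfl, hwa⟩
    · exact Or.inl ⟨rfl, hwb⟩
  have hmove : ∀ (c : Tor n × Bool) (g : Fin 5), (∀ w, (c, w) ∈ K) → ∀ w, (mv n g c, w) ∈ K := by
    intro c g hc
    have h1 : ∀ j, (mv n g c, g, j) ∈ K := by
      intro j
      refine hcl (c, g, false) (c, g, true) _ (hc _) (hc _) ?_ ?_ ?_
      · intro h
        exact Bool.false_ne_true (Prod.mk.inj (Prod.mk.inj h).2).2
      · exact Or.inr ⟨(mv_mv n g c).symm, rfl⟩
      · exact Or.inr ⟨(mv_mv n g c).symm, rfl⟩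
    exact hcell _ (g, false) (g, true) (h1 _) (h1 _)
      (fun h => Bool.false_ne_true (Prod.mk.inj h).2)
  have hstep : ∀ u v : Vtx n, (Gr n).Adj u v → (∀ w, (u.1, w) ∈ K) → ∀ w, (v.1, w) ∈ K := by
    rintro u v (⟨h1, -⟩ | ⟨h1, -⟩) h
    · rw [← h1]; exact h
    · rw [h1]; exact hmove _ _ h
  have hstart : ∀ w, (((0, 0), false), w) ∈ K :=
    hcell ((0, 0), false) (0, false) (0, true) hu hv (fun h => by simp at h)
  have hall : ∀ v : Vtx n, ∀ w, (v.1, w) ∈ K := by
    intro v
    obtain ⟨p⟩ := hc.preconnected (((0, 0), false), 0, false) v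
    have : ∀ (a b : Vtx n) (p : (Gr n).Walk a b), (∀ w, (a.1, w) ∈ K) → ∀ w, (b.1, w) ∈ K := by
      intro a b p
      induction p with
      | nil => exact id
      | cons h _ ih => exact fun ha => ih (hstep _ _ h ha)
    exact this _ _ p hstart
  intro w
  exact hall w w.2

/-! ## Expansion -/

lemma sq_add_four (a b c d : ℝ) : (a + b + c + d) ^ 2 ≤ 4 * (a ^ 2 + b ^ 2 + c ^ 2 + d ^ 2) := by
  nlinarith [sq_nonneg (a - b), sq_nonneg (a - c), sq_nonneg (a - d), sq_nonneg (b - c),
    sq_nonneg (b - d), sq_nonneg (c - d)]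

/-- A sum over the torus of squared differences along edges. -/
lemma sum_tor_le (F : Vtx n → ℝ) (α β : Tor n → Vtx n) (hα : Function.Injective α)
    (hadj : ∀ x, (Gr n).Adj (α x) (β x)) :
    ∑ x, (F (α x) - F (β x)) ^ 2 ≤ energy (Gr n) F := by
  refine sum_le_energy (Gr n) F (fun x => (α x, β x)) ?_ hadj
  intro x y h
  exact hα (Prod.mk.inj h).1

lemma energy_nonneg (F : Vtx n → ℝ) : 0 ≤ energy (Gr n) F := by
  unfold energy
  refine Finset.sum_nonneg fun p _ => ?_
  split_ifs
  · positivity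
  · exact le_refl _

/-- Moving along `g`. -/
lemma step_le (F : Vtx n → ℝ) (g : Fin 5) (hg : g ≠ 0) :
    ∑ x : Tor n, (F ((T n g x, false), 0, false) - F ((x, false), 0, false)) ^ 2 ≤
      16 * energy (Gr n) F := by
  have h1 : ∑ x : Tor n, (F ((T n g x, false), 0, false) - F ((T n g x, true), 0, false)) ^ 2 ≤
      energy (Gr n) F := by
    apply sum_tor_le n F
    · intro x y h
      exact (T n g).injective (Prod.mk.inj (Prod.mk.inj h).1).1
    · intro x
      exact Or.inr ⟨rfl, rfl⟩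
  have h2 : ∑ x : Tor n, (F ((T n g x, true), 0, false) - F ((T n g x, true), g, false)) ^ 2 ≤
      energy (Gr n) F := by
    apply sum_tor_le n F
    · intro x y h
      exact (T n g).injective (Prod.mk.inj (Prod.mk.inj h).1).1
    · intro x
      exact Or.inl ⟨rfl, fun h => hg (Prod.mk.inj h).1.symm⟩
  have h3 : ∑ x : Tor n, (F ((T n g x, true), g, false) - F ((x, false), g, false)) ^ 2 ≤
      energy (Gr n) F := by
    apply sum_tor_le n F
    · intro x y h
      exact (T n g).injective (Prod.mk.inj (Prod.mk.inj h).1).1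
    · intro x
      refine Or.inr ⟨?_, rfl⟩
      simp [mv]
  have h4 : ∑ x : Tor n, (F ((x, false), g, false) - F ((x, false), 0, false)) ^ 2 ≤
      energy (Gr n) F := by
    apply sum_tor_le n F
    · intro x y h
      exact (Prod.mk.inj (Prod.mk.inj h).1).1
    · intro x
      exact Or.inl ⟨rfl, fun h => hg (Prod.mk.inj h).1⟩
  calc ∑ x : Tor n, (F ((T n g x, false), 0, false) - F ((x, false), 0, false)) ^ 2
      ≤ ∑ x : Tor n, 4 * ((F ((T n g x, false), 0, false) - F ((T n g x, true), 0, false)) ^ 2 +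
        (F ((T n g x, true), 0, false) - F ((T n g x, true), g, false)) ^ 2 +
        (F ((T n g x, true), g, false) - F ((x, false), g, false)) ^ 2 +
        (F ((x, false), g, false) - F ((x, false), 0, false)) ^ 2) := by
        refine Finset.sum_le_sum fun x _ => ?_
        refine le_trans (le_of_eq ?_) (sq_add_four _ _ _ _)
        ring
    _ = 4 * (∑ x : Tor n, (F ((T n g x, false), 0, false) - F ((T n g x, true), 0, false)) ^ 2 +
        ∑ x : Tor n, (F ((T n g x, true), 0, false) - F ((T n g x, true), g, false)) ^ 2 +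
        ∑ x : Tor n, (F ((T n g x, true), g, false) - F ((x, false), g, false)) ^ 2 +
        ∑ x : Tor n, (F ((x, false), g, false) - F ((x, false), 0, false)) ^ 2) := by
        rw [← Finset.mul_sum, Finset.sum_add_distrib, Finset.sum_add_distrib,
          Finset.sum_add_distrib]
    _ ≤ 16 * energy (Gr n) F := by linarith

/-- The Poincare inequality for the values on the base vertices. -/
lemma base_le (F : Vtx n → ℝ) (m : ℝ) (hm : ∑ x : Tor n, (F ((x, false), 0, false) - m) = 0) :
    ∑ x : Tor n, (F ((x, false), 0, false) - m) ^ 2 ≤ 6656 * energy (Gr n) F := by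
  have hP := Pool.Agent.H243R3.PCP.poincare (fun x : Tor n => F ((x, false), 0, false) - m) hm
  have e1 := step_le n F 1 (by decide)
  have e2 := step_le n F 2 (by decide)
  have e3 := step_le n F 3 (by decide)
  have e4 := step_le n F 4 (by decide)
  have hT1 : ∀ x : Tor n, T n 1 x = (x.1 + x.2, x.2) := fun x => rfl
  have hT2 : ∀ x : Tor n, T n 2 x = (x.1, x.2 + x.1) := fun x => rfl
  have hT3 : ∀ x : Tor n, T n 3 x = (x.1 + 1, x.2) := fun x => rfl
  have hT4 : ∀ x : Tor n, T n 4 x = (x.1, x.2 + 1) := fun x => rfl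
  simp only [hT1] at e1
  simp only [hT2] at e2
  simp only [hT3] at e3
  simp only [hT4] at e4
  simp only [sub_sub_sub_cancel_right] at hP
  linarith

/-- Distance of the value at a vertex to the value at the base vertex over the same point. -/
lemma dev_le (F : Vtx n → ℝ) (e : Bool) (w : Fin 5 × Bool) :
    ∑ x : Tor n, (F ((x, e), w) - F ((x, false), 0, false)) ^ 2 ≤ 4 * energy (Gr n) F := by
  have hE := energy_nonneg n F
  have hcell : ∀ e : Bool, ∑ x : Tor n, (F ((x, e), w) - F ((x, e), 0, false)) ^ 2 ≤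
      energy (Gr n) F := by
    intro e
    by_cases hw : w = (0, false)
    · subst hw
      simpa using hE
    · apply sum_tor_le n F
      · intro x y h
        exact (Prod.mk.inj (Prod.mk.inj h).1).1
      · intro x
        exact Or.inl ⟨rfl, hw⟩
  have hcross : ∑ x : Tor n, (F ((x, true), 0, false) - F ((x, false), 0, false)) ^ 2 ≤
      energy (Gr n) F := by
    apply sum_tor_le n F
    · intro x y h
      exact (Prod.mk.inj (Prod.mk.inj h).1).1
    · intro x
      exact Or.inr ⟨rfl, rfl⟩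
  cases e with
  | false => exact (hcell false).trans (by linarith)
  | true =>
    calc ∑ x : Tor n, (F ((x, true), w) - F ((x, false), 0, false)) ^ 2
        ≤ ∑ x : Tor n, (2 * (F ((x, true), w) - F ((x, true), 0, false)) ^ 2 +
          2 * (F ((x, true), 0, false) - F ((x, false), 0, false)) ^ 2) := by
          refine Finset.sum_le_sum fun x _ => ?_
          nlinarith [sq_nonneg ((F ((x, true), w) - F ((x, true), 0, false)) -
            (F ((x, true), 0, false) - F ((x, false), 0, false)))]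
      _ = 2 * ∑ x : Tor n, (F ((x, true), w) - F ((x, true), 0, false)) ^ 2 +
          2 * ∑ x : Tor n, (F ((x, true), 0, false) - F ((x, false), 0, false)) ^ 2 := by
          rw [Finset.sum_add_distrib, Finset.mul_sum, Finset.mul_sum]
      _ ≤ 4 * energy (Gr n) F := by linarith [hcell true]

/-- The mean of the values on the base vertices. -/
noncomputable def mean (F : Vtx n → ℝ) : ℝ :=
  (∑ x : Tor n, F ((x, false), 0, false)) / Fintype.card (Tor n)

lemma total_le (F : Vtx n → ℝ) :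
    ∑ v, (F v - mean n F) ^ 2 ≤ 266400 * energy (Gr n) F := by
  have hm : ∑ x : Tor n, (F ((x, false), 0, false) - mean n F) = 0 := by
    rw [Finset.sum_sub_distrib, Finset.sum_const, nsmul_eq_mul, mean, Finset.card_univ]
    have : (Fintype.card (Tor n) : ℝ) ≠ 0 := by
      exact_mod_cast Fintype.card_ne_zero
    field_simp
    ring
  have hb := base_le n F _ hm
  have hsplit : ∀ H : Vtx n → ℝ, ∑ v, H v = ∑ q : Bool × Fin 5 × Bool,
      ∑ x : Tor n, H ((x, q.1), q.2) := by
    intro H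
    rw [← Fintype.sum_prod_type' (f := fun (q : Bool × Fin 5 × Bool) (x : Tor n) =>
      H ((x, q.1), q.2))]
    refine Fintype.sum_equiv
      ⟨fun v => ((v.1.2, v.2), v.1.1), fun p => ((p.2, p.1.1), p.1.2), fun v => rfl,
        fun v => rfl⟩ _ _ ?_
    intro v
    rfl
  rw [hsplit]
  have h1 : ∀ q : Bool × Fin 5 × Bool, ∑ x : Tor n, (F ((x, q.1), q.2) - mean n F) ^ 2 ≤
      13320 * energy (Gr n) F := by
    intro q
    calc ∑ x : Tor n, (F ((x, q.1), q.2) - mean n F) ^ 2
        ≤ ∑ x : Tor n, (2 * (F ((x, q.1), q.2) - F ((x, false), 0, false)) ^ 2 +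
          2 * (F ((x, false), 0, false) - mean n F) ^ 2) := by
          refine Finset.sum_le_sum fun x _ => ?_
          nlinarith [sq_nonneg ((F ((x, q.1), q.2) - F ((x, false), 0, false)) -
            (F ((x, false), 0, false) - mean n F))]
      _ = 2 * ∑ x : Tor n, (F ((x, q.1), q.2) - F ((x, false), 0, false)) ^ 2 +
          2 * ∑ x : Tor n, (F ((x, false), 0, false) - mean n F) ^ 2 := by
          rw [Finset.sum_add_distrib, Finset.mul_sum, Finset.mul_sum]
      _ ≤ 13320 * energy (Gr n) F := by linarith [dev_le n F q.1 q.2]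
  calc ∑ q : Bool × Fin 5 × Bool, ∑ x : Tor n, (F ((x, q.1), q.2) - mean n F) ^ 2
      ≤ ∑ q : Bool × Fin 5 × Bool, 13320 * energy (Gr n) F := Finset.sum_le_sum fun q _ => h1 q
    _ = 266400 * energy (Gr n) F := by
        rw [Finset.sum_const, Finset.card_univ, nsmul_eq_mul]
        have : Fintype.card (Bool × Fin 5 × Bool) = 20 := rfl
        rw [this]
        push_cast
        ring

/-- Expansion of the graphs. -/
lemma Gr_expansion (S : Finset (Vtx n)) (hS : 2 * S.card ≤ Fintype.card (Vtx n)) :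
    (1 / 1065600 : ℝ) * S.card ≤ (boundary (Gr n) (S : Set (Vtx n))).ncard := by
  classical
  set F : Vtx n → ℝ := Set.indicator (S : Set (Vtx n)) 1 with hF
  have h1 := total_le n F
  have h2 := energy_indicator (Gr n) S
  rw [← hF] at h2
  set m := mean n F with hm
  have h3 : (S.card : ℝ) / 2 ≤ ∑ v, (F v - m) ^ 2 := by
    have h4 : ∑ v, (F v - m) ^ 2 = S.card * (1 - m) ^ 2 + (Sᶜ : Finset (Vtx n)).card * m ^ 2 := by
      rw [← Finset.sum_add_sum_compl S]
      congr 1
      · rw [Finset.sum_congr rfl (g := fun _ => (1 - m) ^ 2), Finset.sum_const, nsmul_eq_mul]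
        intro v hv
        rw [hF, Set.indicator_of_mem (by exact_mod_cast hv), Pi.one_apply]
      · rw [Finset.sum_congr rfl (g := fun _ => m ^ 2), Finset.sum_const, nsmul_eq_mul]
        intro v hv
        rw [mem_compl] at hv
        rw [hF, Set.indicator_of_notMem (by exact_mod_cast hv)]
        ring
    have h5 : (S.card : ℝ) ≤ (Sᶜ : Finset (Vtx n)).card := by
      have := Finset.card_add_card_compl S
      exact_mod_cast (by omega : S.card ≤ (Sᶜ : Finset (Vtx n)).card)
    rw [h4]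
    have h6 : (0 : ℝ) ≤ S.card := by positivity
    have h7 : (S.card : ℝ) * m ^ 2 ≤ (Sᶜ : Finset (Vtx n)).card * m ^ 2 :=
      mul_le_mul_of_nonneg_right h5 (sq_nonneg m)
    nlinarith [mul_nonneg h6 (sq_nonneg (2 * m - 1))]
  linarith

lemma Gr_connected : (Gr n).Connected :=
  connected_of_expansion (Gr n) (1 / 1065600) (by norm_num)
    (fun S _ hS => Gr_expansion n S hS)

end Graph

/-- **Main theorem.**  There is a constant degree `11` expander sequence none of whose members
is movable. -/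
theorem result : ∃ d : ℕ, 3 ≤ d ∧ ∃ (V : ℕ → Type) (_ : ∀ n, Fintype (V n))
    (G : ∀ n, SimpleGraph (V n)), IsExpanderSequence d V G ∧ ∀ n, ¬ IsMovable (G n) := by
  refine ⟨11, by norm_num, fun n => Vtx (n + 1), fun n => inferInstance, fun n => Gr (n + 1),
    ⟨fun n => Gr_connected (n + 1), fun n v => Gr_degree (n + 1) v, ?_,
      1 / 1065600, by norm_num, fun n S _ hS => Gr_expansion (n + 1) S hS⟩,
    fun n => Gr_not_movable (n + 1) (Gr_connected (n + 1))⟩
  refine tendsto_atTop_mono (f := fun n => n) (fun n => ?_) tendsto_id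
  rw [card_Vtx]
  nlinarith

end Pool.Agent.Results.MP_e534f3_co.RigidExpanders
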